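import Pool.Agent.Y208.IG.Main
import Pool.Agent.Y208.IG.Existence

/-!
# MP_3b70de_al, Q1: the answer is no

The graphs `G(M, b)` and `G(M, 0)` (24 vertices each) of the magic square have a nonzero isomorphism
game algebra, which has no unital *-homomorphism to the full group C*-algebra of any group, in
particular of any solution group.
-/

set_option autoImplicit false

namespace Pool.Agent.Results.MP_3b70de_al.NoUnitalEmbedding

open Pool.Agent.Y208.IG

theorem result :
    -- isomorphism game algebras and full group C*-algebras exist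
    (∀ (V W : Type) [Fintype V] [Fintype W] (G : SimpleGraph V) (H : SimpleGraph W),
      ∃ (A : Type) (_ : CStarAlgebra A) (p : V → W → A), IsGameAlgebra G H A p) ∧
    (∀ (Γ : Type) [Group Γ],
      ∃ (C : Type) (_ : CStarAlgebra C) (u : Γ →* unitary C), IsFullGroupCStarAlgebra Γ C u) ∧
    -- only the algebras of isomorphic graphs have unital *-homomorphisms to some `C*(Γ)`
    (∀ (V W : Type) [Fintype V] [Fintype W] (G : SimpleGraph V) (H : SimpleGraph W)
      (A : Type) [CStarAlgebra A] (p : V → W → A), IsGameAlgebra G H A p →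
      ∀ (Γ : Type) [Group Γ] (C : Type) [CStarAlgebra C] (u : Γ →* unitary C),
        IsFullGroupCStarAlgebra Γ C u → Nonempty (A →⋆ₐ[ℂ] C) → Nonempty (G ≃g H)) ∧
    -- the magic square graphs are not isomorphic
    IsEmpty (squareGraph bOne ≃g squareGraph bZero) ∧
    -- Q1: their game algebra is not zero and embeds into no `C*(Γ(M, b))`
    ∀ (A : Type) [CStarAlgebra A] (p : Vert bOne → Vert bZero → A),
      IsGameAlgebra (squareGraph bOne) (squareGraph bZero) A p →
      Nontrivial A ∧
      ∀ (m n : ℕ) (M : Matrix (Fin m) (Fin n) (ZMod 2)) (b : Fin m → ZMod 2)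
        (C : Type) [CStarAlgebra C] (u : SolutionGroup M b →* unitary C),
        IsFullGroupCStarAlgebra (SolutionGroup M b) C u →
        ¬ ∃ φ : A →⋆ₐ[ℂ] C, Function.Injective φ := by
  refine ⟨fun V W _ _ G H => exists_gameAlgebra G H, fun Γ _ => exists_groupAlgebra Γ, ?_, ?_, ?_⟩
  · intro V W _ _ G H A _ p hA Γ _ C _ u hC
    rintro ⟨φ⟩
    obtain ⟨χ, -, -⟩ := hC ℂ 1
    exact iso_of_character G H A (χ.comp φ) p hA.relations
  · refine ⟨fun e => ?_⟩
    let z : Fin 6 → Vert bZero := fun k => ⟨(k, 0), by simp [bZero]⟩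
    refine no_six (fun k => e.symm (z k)) ?_
    intro k l hkl
    constructor
    · intro h
      exact hkl (congrArg (fun y : Vert bZero => y.1.1) (e.symm.injective h))
    · intro h
      obtain ⟨j, j', -, hne⟩ := e.symm.map_rel_iff.mp h
      exact hne rfl
  · intro A _ p hA
    obtain ⟨h1, h2⟩ := main.2 A p hA
    refine ⟨h1, ?_⟩
    intro m n M b C _ u hC
    rintro ⟨φ, -⟩
    exact (h2 (SolutionGroup M b) C u hC).false φ

end Pool.Agent.Results.MP_3b70de_al.NoUnitalEmbedding
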